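import Mathlib

/-!
# Countable homogeneous elementary substructures of ultrapowers

For a countable language `L` and a structure `F`, let `U` be the ultrapower of `F` along a
nonprincipal ultrafilter on `ℕ`.

* `embed`: every countable structure elementarily equivalent to `F` embeds elementarily into `U`.
* `forth`: `U` has the forth property for tuples of the same type (it is `ω`-saturated).
* `exists_closed`: every countable subset of `U` is contained in a countable elementary
  substructure of `U` with the forth property.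
* `homogeneous_of_forth`: a countable structure with the forth property is homogeneous.
-/

namespace Pool.Agent.R616.Homog

open FirstOrder Language Structure

variable {L : FirstOrder.Language.{0, 0}}

/-- Two tuples have the same complete type. -/
def SameType (L : FirstOrder.Language.{0, 0}) {M N : Type} [L.Structure M] [L.Structure N] {n : ℕ}
    (a : Fin n → M) (b : Fin n → N) : Prop :=
  ∀ φ : L.Formula (Fin n), φ.Realize a ↔ φ.Realize b

section SameType

variable {M N P : Type} [L.Structure M] [L.Structure N] [L.Structure P] {n : ℕ}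

lemma SameType.symm {a : Fin n → M} {b : Fin n → N} (h : SameType L a b) : SameType L b a :=
  fun φ => (h φ).symm

lemma SameType.trans {a : Fin n → M} {b : Fin n → N} {c : Fin n → P} (h : SameType L a b)
    (h' : SameType L b c) : SameType L a c :=
  fun φ => (h φ).trans (h' φ)

lemma sameType_bounded {a : Fin n → M} {b : Fin n → N} (h : SameType L a b)
    (φ : L.BoundedFormula Empty n) : φ.Realize default a ↔ φ.Realize default b := by
  have h1 : ∀ {Q : Type} [L.Structure Q] (c : Fin n → Q),
      (φ.toFormula.relabel (Sum.elim Empty.elim id) : L.Formula (Fin n)).Realize c ↔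
        φ.Realize default c := by
    intro Q _ c
    rw [Formula.realize_relabel, BoundedFormula.realize_toFormula, iff_iff_eq]
    congr 1
    exact Subsingleton.elim _ _
  rw [← h1, ← h1]
  exact h _

lemma sameType_of_bounded {a : Fin n → M} {b : Fin n → N}
    (h : ∀ φ : L.BoundedFormula Empty n, φ.Realize default a ↔ φ.Realize default b) :
    SameType L a b := by
  intro φ
  rw [← Formula.realize_relabel_sumInr φ (v := default) (x := a),
    ← Formula.realize_relabel_sumInr φ (v := default) (x := b)]
  exact h _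

lemma SameType.comp {m : ℕ} {a : Fin n → M} {b : Fin n → N} (h : SameType L a b)
    (ρ : Fin m → Fin n) : SameType L (a ∘ ρ) (b ∘ ρ) := by
  intro φ
  have := h (φ.relabel ρ)
  rwa [Formula.realize_relabel, Formula.realize_relabel] at this

lemma sameType_map (j : M ↪ₑ[L] N) (a : Fin n → M) : SameType L (fun i => j (a i)) a :=
  fun φ => j.map_formula φ a

lemma SameType.eq_of_eq {a : Fin n → M} {b : Fin n → N} (h : SameType L a b) (i k : Fin n)
    (hik : a i = a k) : b i = b k := by
  have := h (Term.equal (Term.var i) (Term.var k))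
  simp only [Formula.realize_equal, Term.realize_var] at this
  exact this.1 hik

end SameType

/-- The forth property for tuples of the same type. -/
def Forth (L : FirstOrder.Language.{0, 0}) (M : Type) [L.Structure M] : Prop :=
  ∀ (n : ℕ) (a b : Fin n → M), SameType L a b → ∀ c : M, ∃ d : M,
    SameType L (Fin.snoc a c : Fin (n + 1) → M) (Fin.snoc b d : Fin (n + 1) → M)

/-- Homogeneity: tuples of the same type are conjugate under the automorphism group. -/
def IsHomogeneous (L : FirstOrder.Language.{0, 0}) (M : Type) [L.Structure M] : Prop :=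
  ∀ (n : ℕ) (a b : Fin n → M), SameType L a b → ∃ g : M ≃[L] M, ∀ i, g (a i) = b i

/-! ### Back and forth -/

section BackForth

variable {M : Type} [L.Structure M]

/-- A finite partial elementary map, as a finite set of pairs. -/
def E (L : FirstOrder.Language.{0, 0}) {M : Type} [L.Structure M] (s : Finset (M × M)) : Prop :=
  ∀ (n : ℕ) (t : Fin n → M × M), (∀ i, t i ∈ s) →
    SameType L (fun i => (t i).1) (fun i => (t i).2)

lemma E_insert [DecidableEq (M × M)] (hF : Forth L M) {s : Finset (M × M)} (hs : E L s) (c : M) :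
    ∃ d, E L (insert (c, d) s) := by
  let t0 : Fin s.card → M × M := fun i => (s.equivFin.symm i : M × M)
  have ht0 : ∀ i, t0 i ∈ s := fun i => (s.equivFin.symm i).2
  obtain ⟨d, hd⟩ := hF _ _ _ (hs _ t0 ht0) c
  refine ⟨d, fun n t ht => ?_⟩
  have hρ : ∀ i, ∃ k : Fin (s.card + 1), t i = (Fin.snoc t0 (c, d) : Fin (s.card + 1) → M × M) k := by
    intro i
    rcases Finset.mem_insert.1 (ht i) with h | h
    · exact ⟨Fin.last _, by rw [Fin.snoc_last, h]⟩
    · refine ⟨(s.equivFin ⟨t i, h⟩).castSucc, ?_⟩
      rw [Fin.snoc_castSucc]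
      simp [t0]
  choose ρ hρ using hρ
  have h1 := hd.comp ρ
  have e1 : (fun i => (t i).1) = (Fin.snoc (fun i => (t0 i).1) c : Fin (s.card + 1) → M) ∘ ρ := by
    funext i
    rw [hρ i]
    simp only [Function.comp_apply]
    refine Fin.lastCases ?_ (fun k => ?_) (ρ i)
    · simp
    · simp
  have e2 : (fun i => (t i).2) = (Fin.snoc (fun i => (t0 i).2) d : Fin (s.card + 1) → M) ∘ ρ := by
    funext i
    rw [hρ i]
    simp only [Function.comp_apply]
    refine Fin.lastCases ?_ (fun k => ?_) (ρ i)
    · simp
    · simp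
  rw [e1, e2]
  exact h1

lemma E_swap [DecidableEq (M × M)] {s : Finset (M × M)} (hs : E L s) : E L (s.image Prod.swap) := by
  intro n t ht
  have : ∀ i, (t i).swap ∈ s := by
    intro i
    obtain ⟨x, hx, hxt⟩ := Finset.mem_image.1 (ht i)
    rw [← hxt, Prod.swap_swap]
    exact hx
  exact (hs n (fun i => (t i).swap) this).symm

lemma E_insert' [DecidableEq (M × M)] (hF : Forth L M) {s : Finset (M × M)} (hs : E L s) (d : M) :
    ∃ c, E L (insert (c, d) s) := by
  obtain ⟨c, hc⟩ := E_insert hF (E_swap hs) d
  refine ⟨c, ?_⟩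
  have h1 := E_swap hc
  have h2 : (insert (d, c) (s.image Prod.swap)).image Prod.swap = insert (c, d) s := by
    rw [Finset.image_insert, Finset.image_image]
    simp
  rwa [h2] at h1

theorem homogeneous_of_forth [Countable M] (hF : Forth L M) : IsHomogeneous L M := by
  classical
  intro n a b hab
  let _ : Encodable M := Encodable.ofCountable M
  let P := {s : Finset (M × M) // E L s}
  let p0 : P := ⟨Finset.univ.image (fun i => (a i, b i)), by
    intro m t ht
    have : ∀ i, ∃ k, (a k, b k) = t i := by
      intro i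
      obtain ⟨k, -, hk⟩ := Finset.mem_image.1 (ht i)
      exact ⟨k, hk⟩
    choose ρ hρ using this
    have e1 : (fun i => (t i).1) = a ∘ ρ := by
      funext i
      rw [← hρ i]
      rfl
    have e2 : (fun i => (t i).2) = b ∘ ρ := by
      funext i
      rw [← hρ i]
      rfl
    rw [e1, e2]
    exact hab.comp ρ⟩
  let D : M ⊕ M → Order.Cofinal P := fun x => match x with
    | Sum.inl c => ⟨{s | ∃ d, (c, d) ∈ s.1}, by
        rintro ⟨s, hs⟩
        obtain ⟨d, hd⟩ := E_insert hF hs c
        exact ⟨⟨_, hd⟩, ⟨d, Finset.mem_insert_self _ _⟩, Finset.subset_insert _ _⟩⟩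
    | Sum.inr d => ⟨{s | ∃ c, (c, d) ∈ s.1}, by
        rintro ⟨s, hs⟩
        obtain ⟨c, hc⟩ := E_insert' hF hs d
        exact ⟨⟨_, hc⟩, ⟨c, Finset.mem_insert_self _ _⟩, Finset.subset_insert _ _⟩⟩
  let I := Order.idealOfCofinals p0 D
  have hleft : ∀ c, ∃ d, ∃ s ∈ I, (c, d) ∈ s.1 := by
    intro c
    obtain ⟨s, ⟨d, hd⟩, hs⟩ := Order.cofinal_meets_idealOfCofinals p0 D (Sum.inl c)
    exact ⟨d, s, hs, hd⟩
  have hright : ∀ d, ∃ c, ∃ s ∈ I, (c, d) ∈ s.1 := by
    intro d
    obtain ⟨s, ⟨c, hc⟩, hs⟩ := Order.cofinal_meets_idealOfCofinals p0 D (Sum.inr d)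
    exact ⟨c, s, hs, hc⟩
  -- finitely many pairs lie in one condition
  have hdir : ∀ (m : ℕ) (t : Fin m → M × M), (∀ i, ∃ s ∈ I, t i ∈ s.1) →
      ∃ s ∈ I, ∀ i, t i ∈ s.1 := by
    intro m
    induction m with
    | zero => intro t _; exact ⟨p0, Order.mem_idealOfCofinals _ _, fun i => i.elim0⟩
    | succ m ih =>
      intro t ht
      obtain ⟨s, hs, hst⟩ := ih (fun i => t i.castSucc) fun i => ht i.castSucc
      obtain ⟨s', hs', hst'⟩ := ht (Fin.last m)
      obtain ⟨s'', hs'', h1, h2⟩ := I.directed s hs s' hs'
      refine ⟨s'', hs'', fun i => ?_⟩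
      refine Fin.lastCases ?_ (fun k => ?_) i
      · exact h2 hst'
      · exact h1 (hst k)
  have hsame : ∀ (m : ℕ) (t : Fin m → M × M), (∀ i, ∃ s ∈ I, t i ∈ s.1) →
      SameType L (fun i => (t i).1) (fun i => (t i).2) := by
    intro m t ht
    obtain ⟨s, hs, hst⟩ := hdir m t ht
    exact s.2 m t hst
  choose g hg using hleft
  have hsame' : ∀ (m : ℕ) (x : Fin m → M), SameType L x (fun i => g (x i)) := fun m x =>
    hsame m (fun i => (x i, g (x i))) fun i => hg (x i)
  let j : M ↪ₑ[L] M :=
    { toFun := g
      map_formula' := fun m φ x => (hsame' m x φ).symm }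
  have hsurj : Function.Surjective g := by
    intro d
    obtain ⟨c, hc⟩ := hright d
    refine ⟨c, ?_⟩
    have h1 := hsame 2 ![(c, d), (c, g c)] (by
      intro i
      fin_cases i
      · exact hc
      · exact hg c)
    exact (h1.eq_of_eq 0 1 rfl).symm
  have hj : Function.Bijective j := ⟨j.injective, hsurj⟩
  refine ⟨⟨Equiv.ofBijective j hj, fun f x => j.map_fun f x, fun r x => j.map_rel r x⟩, fun i => ?_⟩
  show g (a i) = b i
  have h1 := hsame 2 ![(a i, b i), (a i, g (a i))] (by
    intro k
    fin_cases k
    · exact ⟨p0, Order.mem_idealOfCofinals _ _, Finset.mem_image_of_mem _ (Finset.mem_univ i)⟩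
    · exact hg (a i))
  exact (h1.eq_of_eq 0 1 rfl).symm

end BackForth

/-! ### The ultrapower -/

section Ultrapower

variable (F : Type) [L.Structure F]

/-- The ultrapower of `F` along a nonprincipal ultrafilter on `ℕ`. -/
abbrev U (F : Type) : Type :=
  ((Filter.hyperfilter ℕ : Ultrafilter ℕ) : Filter ℕ).Product (fun _ : ℕ => F)

variable {F}

/-- The class of a sequence. -/
noncomputable def cls (x : ℕ → F) : U F := (x : ((Filter.hyperfilter ℕ : Ultrafilter ℕ) : Filter ℕ).Product
  (fun _ : ℕ => F))

lemma exists_cls (u : U F) : ∃ x : ℕ → F, cls x = u := Quotient.exists_rep u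

lemma realize_cls [Nonempty F] {n : ℕ} (φ : L.BoundedFormula Empty n) (x : Fin n → ℕ → F) :
    φ.Realize (default : Empty → U F) (fun i => cls (x i)) ↔
      ∀ᶠ k in ((Filter.hyperfilter ℕ : Ultrafilter ℕ) : Filter ℕ),
        φ.Realize (default : Empty → F) (fun i => x i k) := by
  have h1 := Ultraproduct.boundedFormula_realize_cast (u := (Filter.hyperfilter ℕ : Ultrafilter ℕ))
    (M := fun _ : ℕ => F) φ (fun i : Empty => i.elim) x
  have e1 : (fun i : Empty => ((i.elim : ∀ _ : ℕ, F) :
      ((Filter.hyperfilter ℕ : Ultrafilter ℕ) : Filter ℕ).Product (fun _ : ℕ => F))) =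
      (default : Empty → U F) := Subsingleton.elim _ _
  rw [e1] at h1
  refine h1.trans ?_
  refine Filter.eventually_congr (Filter.Eventually.of_forall fun k => ?_)
  have e2 : (fun i : Empty => (i.elim : ∀ _ : ℕ, F) k) = (default : Empty → F) :=
    Subsingleton.elim _ _
  rw [e2]

lemma eventually_ge (k : ℕ) :
    ∀ᶠ i in ((Filter.hyperfilter ℕ : Ultrafilter ℕ) : Filter ℕ), k ≤ i :=
  (Filter.hyperfilter_le_cofinite.trans Nat.cofinite_eq_atTop.le) (Filter.eventually_ge_atTop k)

/-- The conjunction of the first `k` formulas of a sequence. -/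
def conj {n : ℕ} (Ψ : ℕ → L.BoundedFormula Empty n) : ℕ → L.BoundedFormula Empty n
  | 0 => ⊤
  | k + 1 => conj Ψ k ⊓ Ψ k

lemma realize_conj {n : ℕ} {M : Type} [L.Structure M] (Ψ : ℕ → L.BoundedFormula Empty n) (k : ℕ)
    (x : Fin n → M) :
    (conj Ψ k).Realize default x ↔ ∀ l < k, (Ψ l).Realize default x := by
  induction k with
  | zero => simp [conj]
  | succ k ih =>
    rw [conj, BoundedFormula.realize_inf, ih]
    constructor
    · rintro ⟨h1, h2⟩ l hl
      rcases Nat.lt_succ_iff_lt_or_eq.1 hl with h | rfl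
      · exact h1 l h
      · exact h2
    · intro h
      exact ⟨fun l hl => h l (by omega), h k (by omega)⟩

instance countable_bounded [Countable (Σ l, L.Functions l)] [Countable (Σ l, L.Relations l)]
    (n : ℕ) : Countable (L.BoundedFormula Empty n) := by
  have h1 : Countable (Σ n, L.BoundedFormula Empty n) := by
    rw [← Cardinal.mk_le_aleph0_iff]
    refine BoundedFormula.card_le.trans ?_
    rw [max_le_iff]
    refine ⟨le_rfl, ?_⟩
    have h2 : L.card ≤ Cardinal.aleph0 := by
      rw [Language.card, Cardinal.mk_le_aleph0_iff]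
      infer_instance
    simpa using h2
  exact Function.Injective.countable (f := fun φ : L.BoundedFormula Empty n =>
    (⟨n, φ⟩ : Σ n, L.BoundedFormula Empty n)) (fun a b h => by simpa using h)

/-- The forth property between two tuples of the ultrapower, and more generally between a tuple in
an arbitrary structure and a tuple in the ultrapower. -/
lemma forth_general [Nonempty F] [Countable (Σ l, L.Functions l)] [Countable (Σ l, L.Relations l)]
    {A : Type} [L.Structure A] {n : ℕ} (a : Fin n → A) (b : Fin n → U F) (hab : SameType L a b)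
    (c : A) : ∃ d : U F, SameType L (Fin.snoc a c : Fin (n + 1) → A)
      (Fin.snoc b d : Fin (n + 1) → U F) := by
  classical
  have hcount : Countable (L.BoundedFormula Empty (n + 1)) := inferInstance
  obtain ⟨ψ, hψ⟩ := exists_surjective_nat (L.BoundedFormula Empty (n + 1))
  let Ψ : ℕ → L.BoundedFormula Empty (n + 1) := fun k =>
    if (ψ k).Realize default (Fin.snoc a c : Fin (n + 1) → A) then ψ k else (ψ k).not
  have hΨ : ∀ k, (Ψ k).Realize default (Fin.snoc a c : Fin (n + 1) → A) := by
    intro k
    by_cases h : (ψ k).Realize default (Fin.snoc a c : Fin (n + 1) → A)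
    · simp only [Ψ, if_pos h]
      exact h
    · simp only [Ψ, if_neg h, BoundedFormula.realize_not]
      exact h
  choose B hB using fun i => exists_cls (b i)
  have hP : ∀ k, ∀ᶠ i in ((Filter.hyperfilter ℕ : Ultrafilter ℕ) : Filter ℕ),
      ∃ x : F, ∀ l < k, (Ψ l).Realize default (Fin.snoc (fun t => B t i) x : Fin (n + 1) → F) := by
    intro k
    have h1 : ((conj Ψ k).ex).Realize default a := by
      rw [BoundedFormula.realize_ex]
      exact ⟨c, (realize_conj _ _ _).2 fun l _ => hΨ l⟩
    have h2 := (sameType_bounded hab _).1 h1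
    have e : b = fun i => cls (B i) := by
      funext i
      exact (hB i).symm
    rw [e, realize_cls] at h2
    refine h2.mono fun i hi => ?_
    rw [BoundedFormula.realize_ex] at hi
    obtain ⟨x, hx⟩ := hi
    exact ⟨x, (realize_conj _ _ _).1 hx⟩
  let P : ℕ → ℕ → Prop := fun i k =>
    ∃ x : F, ∀ l < k, (Ψ l).Realize default (Fin.snoc (fun t => B t i) x : Fin (n + 1) → F)
  have hP0 : ∀ i, P i 0 := fun i => ⟨Classical.arbitrary F, fun l hl => absurd hl (by omega)⟩
  have hgr : ∀ i, P i (Nat.findGreatest (P i) i) := fun i =>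
    Nat.findGreatest_spec (P := P i) (Nat.zero_le i) (hP0 i)
  choose D hD using hgr
  refine ⟨cls D, sameType_of_bounded fun φ => ?_⟩
  obtain ⟨k, rfl⟩ := hψ φ
  have hkey : (Ψ k).Realize default (Fin.snoc b (cls D) : Fin (n + 1) → U F) := by
    have e : (Fin.snoc b (cls D) : Fin (n + 1) → U F) =
        fun i => cls ((Fin.snoc B D : Fin (n + 1) → ℕ → F) i) := by
      funext i
      refine Fin.lastCases ?_ (fun j => ?_) i
      · simp
      · simp [hB]
    rw [e, realize_cls]
    refine ((hP (k + 1)).and (eventually_ge (k + 1))).mono ?_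
    rintro i ⟨h1, h2⟩
    have h3 : k + 1 ≤ Nat.findGreatest (P i) i := Nat.le_findGreatest h2 h1
    have h4 := hD i k (by omega)
    have e2 : (fun t => (Fin.snoc B D : Fin (n + 1) → ℕ → F) t i) =
        (Fin.snoc (fun t => B t i) (D i) : Fin (n + 1) → F) := by
      funext t
      refine Fin.lastCases ?_ (fun j => ?_) t
      · simp
      · simp
    rw [e2]
    exact h4
  by_cases h : (ψ k).Realize default (Fin.snoc a c : Fin (n + 1) → A)
  · simp only [Ψ, if_pos h] at hkey
    exact ⟨fun _ => hkey, fun _ => h⟩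
  · simp only [Ψ, if_neg h, BoundedFormula.realize_not] at hkey
    exact ⟨fun h' => absurd h' h, fun h' => absurd h' hkey⟩

/-- The ultrapower has the forth property. -/
lemma forth [Nonempty F] [Countable (Σ l, L.Functions l)] [Countable (Σ l, L.Relations l)] :
    Forth L (U F) := fun _ a b hab c => forth_general a b hab c

/-- The ultrapower is elementarily equivalent to `F`. -/
lemma elementarilyEquivalent [Nonempty F] : L.ElementarilyEquivalent (U F) F := by
  rw [Language.elementarilyEquivalent_iff]
  intro φ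
  have h1 := Ultraproduct.sentence_realize (u := (Filter.hyperfilter ℕ : Ultrafilter ℕ))
    (M := fun _ : ℕ => F) φ
  rw [Filter.eventually_const] at h1
  exact h1

/-- Every countable structure elementarily equivalent to `F` embeds into the ultrapower. -/
theorem embed [Nonempty F] [Countable (Σ l, L.Functions l)] [Countable (Σ l, L.Relations l)]
    (A : Type) [L.Structure A] [Countable A] [Nonempty A] (hA : L.ElementarilyEquivalent A F) :
    Nonempty (A ↪ₑ[L] U F) := by
  classical
  obtain ⟨e, he⟩ := exists_surjective_nat A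
  -- build the images one by one
  have h0 : SameType L (fun i : Fin 0 => (i.elim0 : A)) (fun i : Fin 0 => (i.elim0 : U F)) := by
    refine sameType_of_bounded fun φ => ?_
    have h1 : (φ.Realize default (fun i : Fin 0 => (i.elim0 : A)) ↔ A ⊨ (φ : L.Sentence)) := by
      rw [Sentence.Realize, Formula.Realize, iff_iff_eq]
      congr 1
    have h2 : (φ.Realize default (fun i : Fin 0 => (i.elim0 : U F)) ↔
        U F ⊨ (φ : L.Sentence)) := by
      rw [Sentence.Realize, Formula.Realize, iff_iff_eq]
      congr 1
    rw [h1, h2]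
    exact (Language.elementarilyEquivalent_iff.1 (hA.trans elementarilyEquivalent.symm)) φ
  let T : (n : ℕ) → {b : Fin n → U F // SameType L (fun i : Fin n => e i) b} := fun n =>
    Nat.rec (motive := fun n => {b : Fin n → U F // SameType L (fun i : Fin n => e i) b})
      ⟨fun i => i.elim0, by
        have e1 : (fun i : Fin 0 => e i) = fun i : Fin 0 => (i.elim0 : A) := by
          funext i
          exact i.elim0
        rw [e1]
        exact h0⟩
      (fun n b => ⟨Fin.snoc b.1 (forth_general _ b.1 b.2 (e n)).choose, by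
        have h1 := (forth_general _ b.1 b.2 (e n)).choose_spec
        have e1 : (fun i : Fin (n + 1) => e i) =
            (Fin.snoc (fun i : Fin n => e i) (e n) : Fin (n + 1) → A) := by
          funext i
          refine Fin.lastCases ?_ (fun j => ?_) i
          · simp
          · simp
        rw [e1]
        exact h1⟩) n
  let y : ℕ → U F := fun n => (T (n + 1)).1 (Fin.last n)
  have hT : ∀ n (i : Fin n), (T n).1 i = y i := by
    intro n
    induction n with
    | zero => intro i; exact i.elim0
    | succ n ih =>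
      intro i
      refine Fin.lastCases ?_ (fun j => ?_) i
      · rfl
      · have h1 : (T (n + 1)).1 j.castSucc = (T n).1 j := by
          show (Fin.snoc (T n).1 _ : Fin (n + 1) → U F) j.castSucc = _
          rw [Fin.snoc_castSucc]
        rw [h1, ih j]
        rfl
  have hy : ∀ n, SameType L (fun i : Fin n => e i) (fun i : Fin n => y i) := by
    intro n
    have h1 := (T n).2
    have e1 : (T n).1 = fun i : Fin n => y i := funext (hT n)
    rw [e1] at h1
    exact h1
  choose r hr using he
  refine ⟨{ toFun := fun x => y (r x), map_formula' := ?_ }⟩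
  intro n φ x
  -- a common bound for the indices
  let N : ℕ := (Finset.univ.sup fun i => r (x i)) + 1
  have hN : ∀ i, r (x i) < N := fun i =>
    Nat.lt_succ_of_le (Finset.le_sup (f := fun i => r (x i)) (Finset.mem_univ i))
  have h1 := (hy N).comp (fun i : Fin n => (⟨r (x i), hN i⟩ : Fin N))
  have e1 : (fun i : Fin N => e i) ∘ (fun i : Fin n => (⟨r (x i), hN i⟩ : Fin N)) = x := by
    funext i
    exact hr (x i)
  rw [e1] at h1
  exact (h1 φ).symm

end Ultrapower

/-! ### Countable elementary substructures with the forth property -/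

section Closed

variable {V : Type} [L.Structure V]

theorem exists_closed [Countable (Σ l, L.Functions l)] [Countable (Σ l, L.Relations l)]
    [Nonempty V] (hV : Forth L V) (X : Set V) (hX : X.Countable) :
    ∃ S : L.ElementarySubstructure V, Countable S ∧ X ⊆ (S : Set V) ∧ Forth L S := by
  classical
  -- witnesses
  have hf : ∀ q : (Σ n, L.BoundedFormula Empty (n + 1) × (Fin n → V)), ∃ c : V,
      (∃ x, (q.2.1).Realize default (Fin.snoc q.2.2 x : Fin (q.1 + 1) → V)) →
        (q.2.1).Realize default (Fin.snoc q.2.2 c : Fin (q.1 + 1) → V) := by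
    intro q
    by_cases h : ∃ x, (q.2.1).Realize default (Fin.snoc q.2.2 x : Fin (q.1 + 1) → V)
    · exact ⟨h.choose, fun _ => h.choose_spec⟩
    · exact ⟨Classical.arbitrary V, fun h' => absurd h' h⟩
  choose f hf using hf
  have hg : ∀ q : (Σ n, (Fin n → V) × (Fin n → V) × V), ∃ d : V,
      SameType L q.2.1 q.2.2.1 →
        SameType L (Fin.snoc q.2.1 q.2.2.2 : Fin (q.1 + 1) → V)
          (Fin.snoc q.2.2.1 d : Fin (q.1 + 1) → V) := by
    intro q
    by_cases h : SameType L q.2.1 q.2.2.1
    · obtain ⟨d, hd⟩ := hV _ _ _ h q.2.2.2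
      exact ⟨d, fun _ => hd⟩
    · exact ⟨Classical.arbitrary V, fun h' => absurd h' h⟩
  choose g hg using hg
  -- the stages
  let step : Set V → Set V := fun Y => Y ∪
    (Set.range (fun q : (Σ n, L.BoundedFormula Empty (n + 1) × (Fin n → Y)) =>
      f ⟨q.1, q.2.1, fun i => (q.2.2 i : V)⟩) ∪
    Set.range (fun q : (Σ n, (Fin n → Y) × (Fin n → Y) × Y) =>
      g ⟨q.1, fun i => (q.2.1 i : V), fun i => (q.2.2.1 i : V), (q.2.2.2 : V)⟩))
  have hstep : ∀ Y : Set V, Y.Countable → (step Y).Countable := by
    intro Y hY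
    have : Countable Y := hY.to_subtype
    have hc : ∀ n, Countable (L.BoundedFormula Empty n) := fun n => inferInstance
    have : Countable (Σ n, L.BoundedFormula Empty (n + 1) × (Fin n → Y)) := by
      have : ∀ n, Countable (L.BoundedFormula Empty (n + 1) × (Fin n → Y)) := fun n => by
        have := hc (n + 1)
        infer_instance
      infer_instance
    exact hY.union ((Set.countable_range _).union (Set.countable_range _))
  let St : ℕ → Set V := fun k => step^[k] X
  have hSt : ∀ k, (St k).Countable := by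
    intro k
    induction k with
    | zero => exact hX
    | succ k ih =>
      show (step^[k + 1] X).Countable
      rw [Function.iterate_succ_apply']
      exact hstep _ ih
  have hsucc : ∀ k, St (k + 1) = step (St k) := fun k => Function.iterate_succ_apply' _ _ _
  have hmono : Monotone St := by
    refine monotone_nat_of_le_succ fun k => ?_
    rw [hsucc]
    exact Set.subset_union_left
  let S : Set V := ⋃ k, St k
  have hS : S.Countable := Set.countable_iUnion hSt
  have hfin : ∀ (n : ℕ) (a : Fin n → V), (∀ i, a i ∈ S) → ∃ k, ∀ i, a i ∈ St k := by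
    intro n a ha
    choose k hk using fun i => Set.mem_iUnion.1 (ha i)
    exact ⟨Finset.univ.sup k, fun i => hmono (Finset.le_sup (Finset.mem_univ i)) (hk i)⟩
  have hSf : ∀ (n : ℕ) (φ : L.BoundedFormula Empty (n + 1)) (a : Fin n → V), (∀ i, a i ∈ S) →
      (∃ x, φ.Realize default (Fin.snoc a x : Fin (n + 1) → V)) →
      ∃ x ∈ S, φ.Realize default (Fin.snoc a x : Fin (n + 1) → V) := by
    intro n φ a ha hx
    obtain ⟨k, hk⟩ := hfin n a ha
    refine ⟨f ⟨n, φ, a⟩, ?_, hf ⟨n, φ, a⟩ hx⟩
    refine Set.mem_iUnion.2 ⟨k + 1, ?_⟩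
    rw [hsucc]
    exact Or.inr (Or.inl ⟨⟨n, φ, fun i => ⟨a i, hk i⟩⟩, rfl⟩)
  have hSg : ∀ (n : ℕ) (a b : Fin n → V) (c : V), (∀ i, a i ∈ S) → (∀ i, b i ∈ S) → c ∈ S →
      SameType L a b → ∃ d ∈ S, SameType L (Fin.snoc a c : Fin (n + 1) → V)
        (Fin.snoc b d : Fin (n + 1) → V) := by
    intro n a b c ha hb hc hab
    obtain ⟨k₁, hk₁⟩ := hfin n a ha
    obtain ⟨k₂, hk₂⟩ := hfin n b hb
    obtain ⟨k₃, hk₃⟩ := Set.mem_iUnion.1 hc
    let k := max k₁ (max k₂ k₃)
    refine ⟨g ⟨n, a, b, c⟩, ?_, hg ⟨n, a, b, c⟩ hab⟩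
    refine Set.mem_iUnion.2 ⟨k + 1, ?_⟩
    rw [hsucc]
    exact Or.inr (Or.inr ⟨⟨n, fun i => ⟨a i, hmono (le_max_left _ _) (hk₁ i)⟩,
      fun i => ⟨b i, hmono ((le_max_left _ _).trans (le_max_right _ _)) (hk₂ i)⟩,
      ⟨c, hmono ((le_max_right _ _).trans (le_max_right _ _)) hk₃⟩⟩, rfl⟩)
  -- the substructure
  let S0 : L.Substructure V :=
    { carrier := S
      fun_mem := by
        intro n F x hx
        let φ : L.BoundedFormula Empty (n + 1) :=
          Term.bdEqual (Term.var (Sum.inr (Fin.last n)))
            (Term.func F fun i : Fin n => Term.var (Sum.inr i.castSucc))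
        obtain ⟨y, hy, hφ⟩ := hSf n φ x hx ⟨funMap F x, by
          simp [φ, BoundedFormula.realize_bdEqual]⟩
        have h1 : y = funMap F x := by
          simpa [φ, BoundedFormula.realize_bdEqual] using hφ
        rw [← h1]
        exact hy }
  have hS0 : S0.IsElementary := by
    refine Substructure.isElementary_of_exists S0 ?_
    intro n φ x a hφ
    obtain ⟨y, hy, h⟩ := hSf n φ (fun i => (x i : V)) (fun i => (x i).2) ⟨a, hφ⟩
    exact ⟨⟨y, hy⟩, h⟩
  let S1 : L.ElementarySubstructure V := ⟨S0, hS0⟩
  refine ⟨S1, hS.to_subtype, ?_, ?_⟩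
  · intro x hx
    exact Set.mem_iUnion.2 ⟨0, hx⟩
  · intro n a b hab c
    have h1 : SameType L (fun i => (a i : V)) (fun i => (b i : V)) :=
      ((sameType_map S1.subtype a).trans hab).trans (sameType_map S1.subtype b).symm
    obtain ⟨d, hd, h2⟩ := hSg n (fun i => (a i : V)) (fun i => (b i : V)) (c : V)
      (fun i => (a i).2) (fun i => (b i).2) c.2 h1
    refine ⟨⟨d, hd⟩, ?_⟩
    have h3 := (sameType_map S1.subtype (Fin.snoc a c : Fin (n + 1) → S1)).symm
    have h4 := sameType_map S1.subtype (Fin.snoc b ⟨d, hd⟩ : Fin (n + 1) → S1)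
    have e1 : (fun i => S1.subtype ((Fin.snoc a c : Fin (n + 1) → S1) i)) =
        (Fin.snoc (fun i => (a i : V)) (c : V) : Fin (n + 1) → V) := by
      funext i
      refine Fin.lastCases ?_ (fun j => ?_) i
      · simp
      · simp
    have e2 : (fun i => S1.subtype ((Fin.snoc b ⟨d, hd⟩ : Fin (n + 1) → S1) i)) =
        (Fin.snoc (fun i => (b i : V)) d : Fin (n + 1) → V) := by
      funext i
      refine Fin.lastCases ?_ (fun j => ?_) i
      · simp
      · simp
    rw [e1] at h3
    rw [e2] at h4
    exact (h3.trans h2).trans h4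

end Closed

end Pool.Agent.R616.Homog
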