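import Mathlib

/-!
# Transfer of finite consistency patterns between elementarily equivalent structures
-/

namespace Pool.Agent.R616.Pattern

open FirstOrder Language

universe u v

variable {L : FirstOrder.Language.{0, 0}} {X Y I : Type} [Finite X] [Finite Y] [Finite I]

/-- The instances of `φ` at the parameters `b i`, `i ∈ J`, have a common solution. -/
def Cons (φ : L.Formula (X ⊕ Y)) (N : Type u) [L.Structure N] (b : I → Y → N) (J : Set I) : Prop :=
  ∃ a : X → N, ∀ i ∈ J, φ.Realize (Sum.elim a (b i))

/-- The formula saying that the instances at the parameters in `J` have a common solution. -/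
noncomputable def psi (φ : L.Formula (X ⊕ Y)) (J : Set I) : L.Formula (I × Y) :=
  (Formula.iInf (fun i : J => φ.relabel
    (Sum.elim (fun x => (Sum.inr x : (I × Y) ⊕ X)) (fun y => Sum.inl (i.1, y))))).iExs X

omit [Finite Y] in
lemma realize_psi (φ : L.Formula (X ⊕ Y)) (J : Set I) {N : Type u} [L.Structure N]
    (b : I → Y → N) :
    (psi φ J).Realize (fun p => b p.1 p.2) ↔ Cons φ N b J := by
  unfold psi Cons
  rw [Formula.realize_iExs]
  refine exists_congr fun a => ?_
  rw [Formula.realize_iInf, Subtype.forall]
  refine forall₂_congr fun i hi => ?_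
  rw [Formula.realize_relabel]
  have e : (Sum.elim (fun p : I × Y => b p.1 p.2) a) ∘
      (Sum.elim (fun x => (Sum.inr x : (I × Y) ⊕ X)) (fun y => Sum.inl (i, y))) =
      Sum.elim a (b i) := by
    funext z
    rcases z with z | z <;> rfl
  rw [e]

/-- The formula saying that the parameters with the indices `i` and `j` are equal. -/
noncomputable def eqf (L : FirstOrder.Language.{0, 0}) (Y : Type) [Finite Y] {I : Type} (i j : I) :
    L.Formula (I × Y) :=
  Formula.iInf (fun y : Y => Term.equal (Term.var (i, y)) (Term.var (j, y)))

omit [Finite I] in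
lemma realize_eqf (i j : I) {N : Type u} [L.Structure N] (b : I → Y → N) :
    (eqf L Y i j).Realize (fun p => b p.1 p.2) ↔ b i = b j := by
  unfold eqf
  rw [Formula.realize_iInf]
  constructor
  · intro h
    funext y
    have := h y
    rwa [Formula.realize_equal] at this
  · intro h y
    rw [Formula.realize_equal]
    exact congrFun h y

/-- The transfer of consistency patterns. -/
theorem pattern {M : Type u} {N : Type v} [L.Structure M] [L.Structure N]
    (h : ∀ s : L.Sentence, N ⊨ s → M ⊨ s) (φ : L.Formula (X ⊕ Y)) (b : I → Y → N) :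
    ∃ b' : I → Y → M, (∀ J : Set I, Cons φ M b' J ↔ Cons φ N b J) ∧
      ∀ i j, b' i = b' j ↔ b i = b j := by
  classical
  let th : L.Formula (I × Y) :=
    (Formula.iInf (fun J : Set I => if Cons φ N b J then psi φ J else (psi φ J).not)) ⊓
    (Formula.iInf (fun p : I × I => if b p.1 = b p.2 then eqf L Y p.1 p.2
      else (eqf L Y p.1 p.2).not))
  let s : L.Sentence := (th.relabel (Sum.inr : I × Y → Empty ⊕ (I × Y))).iExs (I × Y)
  have hs : N ⊨ s := by
    have : (Formula.Realize s (default : Empty → N)) := by
      rw [Formula.realize_iExs]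
      refine ⟨fun p => b p.1 p.2, ?_⟩
      rw [Formula.realize_relabel]
      have e : (Sum.elim (default : Empty → N) (fun p : I × Y => b p.1 p.2)) ∘
          (Sum.inr : I × Y → Empty ⊕ (I × Y)) = fun p => b p.1 p.2 := rfl
      rw [e, Formula.realize_inf, Formula.realize_iInf, Formula.realize_iInf]
      refine ⟨fun J => ?_, fun p => ?_⟩
      · by_cases hJ : Cons φ N b J
        · rw [if_pos hJ, realize_psi]
          exact hJ
        · rw [if_neg hJ, Formula.realize_not, realize_psi]
          exact hJ
      · by_cases hp : b p.1 = b p.2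
        · rw [if_pos hp, realize_eqf]
          exact hp
        · rw [if_neg hp, Formula.realize_not, realize_eqf]
          exact hp
    exact this
  have hs' : (Formula.Realize s (default : Empty → M)) := h s hs
  rw [Formula.realize_iExs] at hs'
  obtain ⟨c, hc⟩ := hs'
  rw [Formula.realize_relabel] at hc
  obtain ⟨b', rfl⟩ : ∃ b' : I → Y → M, c = fun p => b' p.1 p.2 := ⟨fun i y => c (i, y), rfl⟩
  have e : (Sum.elim (default : Empty → M) (fun p : I × Y => b' p.1 p.2)) ∘
      (Sum.inr : I × Y → Empty ⊕ (I × Y)) = fun p => b' p.1 p.2 := rfl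
  rw [e, Formula.realize_inf, Formula.realize_iInf, Formula.realize_iInf] at hc
  refine ⟨b', fun J => ?_, fun i j => ?_⟩
  · have := hc.1 J
    by_cases hJ : Cons φ N b J
    · rw [if_pos hJ, realize_psi] at this
      exact iff_of_true this hJ
    · rw [if_neg hJ, Formula.realize_not, realize_psi] at this
      exact iff_of_false this hJ
  · have := hc.2 (i, j)
    by_cases hJ : b i = b j
    · rw [if_pos hJ, realize_eqf] at this
      exact iff_of_true this hJ
    · rw [if_neg hJ, Formula.realize_not, realize_eqf] at this
      exact iff_of_false this hJ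

end Pool.Agent.R616.Pattern
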